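import Pool.Agent.Helper85.KPA.AsmC
import Pool.Agent.Helper52.KP.Main
import Pool.Agent.Helper36.KPA.M_CHM
import Pool.Agent.Helper6.KPA.M_CDN
import Pool.Agent.Helper42.KPA.M_CDV
import Pool.Agent.Helper34.KPA.M_CSP
import Pool.Agent.Helper22.KPA.M_CBD
import Pool.Agent.Helper53.KPA.M_CNP
import Pool.Agent.Helper32.KPA.M_CXD
import Pool.Agent.Helper66.KPA.M_CND
import Pool.Agent.Helper63.KPA.M_CXG
import Pool.Agent.Helper63.KPA.M_CAP

/-!
# PROJECT KP, chapter A, part C: `StCBD` and `StCOP`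
-/

set_option autoImplicit false

namespace Pool.Agent.Helper85.KPA

open Pool.Agent.Helper5.KPA Pool.Agent.Helper52.KP

theorem cCHM : StCHM := Pool.Agent.Helper36.KPA.hCHM
theorem cCDN : StCDN := Pool.Agent.Helper6.KPA.hCDN
theorem cCDV : StCDV := Pool.Agent.Helper42.KPA.hCDV cCDN
theorem cCSP : StCSP := Pool.Agent.Helper34.KPA.hCSP
theorem cCBD : StCBD := Pool.Agent.Helper22.KPA.hCBD mMOM mNUL cCDN
theorem cCNP : StCNP := Pool.Agent.Helper53.KPA.hCNP cCDV cCBD cCHM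
theorem cCXD : StCXD := Pool.Agent.Helper32.KPA.hCXD cCDN cCDV cCBD cCHM cCNP
theorem cCND : StCND := Pool.Agent.Helper66.KPA.hCND cCHM
theorem cCXG : StCXG := Pool.Agent.Helper63.KPA.hCXG cCHM cCND cCXD
theorem cCAP : StCAP := Pool.Agent.Helper63.KPA.hCAP
theorem cCOP : StCOP := hCOP cCHM cCSP cCBD cCND cCXG cCAP

end Pool.Agent.Helper85.KPA
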