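import Pool.Agent.Helper5.KPA.StD

/-!
# Project KP, chapter A, module AEQ: ranks of a lattice and of its dual
-/

set_option autoImplicit false

namespace Pool.Agent.Helper85.KPA

open Pool.Agent.Helper5.KPA Pool.Agent.Helper52.KP MvPolynomial

theorem fs_up {e : ℕ} (a : MvPolynomial (Fin e) ℂ) :
    finSuccEquiv ℂ e (up a) = Polynomial.C a := by
  induction a using MvPolynomial.induction_on with
  | C a => simp only [up, rename_C]; rw [finSuccEquiv_apply]; simp
  | add p q hp hq => simp only [up, map_add] at *; rw [hp, hq]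
  | mul_X p i hp =>
    simp only [up, map_mul, rename_X] at *
    rw [hp, finSuccEquiv_X_succ]

theorem fs_coeff {e δ : ℕ} (f : MvPolynomial (Fin (e + 1)) ℂ) (hf : Mo f δ) (i : ℕ) (hi : δ ≤ i) :
    (finSuccEquiv ℂ e f).coeff i = if i = δ then 1 else 0 := by
  obtain ⟨h1, h2⟩ := hf
  have h1' : f.IsHomogeneous δ := by
    simp only [hp, Int.toNat_natCast] at h1
    rw [if_pos (Int.natCast_nonneg δ)] at h1
    exact h1
  ext m
  rw [finSuccEquiv_coeff_coeff]
  by_cases hm : m = 0
  · subst hm
    have e1 : Finsupp.cons i (0 : Fin e →₀ ℕ) = Finsupp.single 0 i := by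
      ext j
      refine Fin.cases ?_ (fun j => ?_) j
      · simp
      · simp
    rw [e1]
    split_ifs with hid
    · rw [hid, h2]; simp
    · simp only [coeff_zero]
      by_contra hne
      have := h1' hne
      simp [Finsupp.weight_single] at this
      exact hid this
  · have : coeff (Finsupp.cons i m) f = 0 := by
      by_contra hne
      have h3 := h1' hne
      have h4 : Finsupp.degree (Finsupp.cons i m) = i + Finsupp.degree m := by
        simp [Finsupp.degree_eq_sum, Fin.sum_univ_succ]
      have h5 : Finsupp.weight (1 : Fin (e + 1) → ℕ) (Finsupp.cons i m) =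
          Finsupp.degree (Finsupp.cons i m) := by
        rw [Finsupp.degree_eq_weight_one]; rfl
      rw [h5, h4] at h3
      have h6 : Finsupp.degree m = 0 := by omega
      exact hm ((Finsupp.degree_eq_zero_iff m).mp h6)
    rw [this]
    split_ifs
    · rw [coeff_one, if_neg (Ne.symm hm)]
    · simp

theorem fs_monic {e δ : ℕ} (f : MvPolynomial (Fin (e + 1)) ℂ) (hf : Mo f δ) :
    (finSuccEquiv ℂ e f).Monic ∧ (finSuccEquiv ℂ e f).natDegree = δ := by
  have hd : (finSuccEquiv ℂ e f).natDegree ≤ δ := by
    rw [Polynomial.natDegree_le_iff_coeff_eq_zero]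
    intro N hN
    rw [fs_coeff f hf N hN.le, if_neg hN.ne']
  have hc : (finSuccEquiv ℂ e f).coeff δ = 1 := by rw [fs_coeff f hf δ le_rfl, if_pos rfl]
  have hd' : (finSuccEquiv ℂ e f).natDegree = δ := by
    refine le_antisymm hd (Polynomial.le_natDegree_of_ne_zero ?_)
    rw [hc]; exact one_ne_zero
  refine ⟨?_, hd'⟩
  rw [Polynomial.Monic, Polynomial.leadingCoeff, hd', hc]

/-- coefficients of the remainder modulo `f` -/
noncomputable def cf {e : ℕ} (f p : MvPolynomial (Fin (e + 1)) ℂ) (i : ℕ) :
    MvPolynomial (Fin e) ℂ :=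
  (Polynomial.modByMonicHom (finSuccEquiv ℂ e f) (finSuccEquiv ℂ e p)).coeff i

/-- polynomials of degree `< δ` in `X_0` -/
noncomputable def sec {e δ : ℕ} (v : Fin δ → MvPolynomial (Fin e) ℂ) :
    MvPolynomial (Fin (e + 1)) ℂ := ∑ i, up (v i) * X 0 ^ (i : ℕ)

theorem cf_add {e : ℕ} (f p q : MvPolynomial (Fin (e + 1)) ℂ) (i : ℕ) :
    cf f (p + q) i = cf f p i + cf f q i := by
  simp only [cf, map_add, Polynomial.coeff_add]

theorem cf_zero {e : ℕ} (f : MvPolynomial (Fin (e + 1)) ℂ) (i : ℕ) : cf f 0 i = 0 := by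
  simp [cf]

theorem cf_sum {e : ℕ} {ι : Type} (s : Finset ι) (f : MvPolynomial (Fin (e + 1)) ℂ)
    (p : ι → MvPolynomial (Fin (e + 1)) ℂ) (i : ℕ) :
    cf f (∑ j ∈ s, p j) i = ∑ j ∈ s, cf f (p j) i := by
  classical
  induction s using Finset.induction_on with
  | empty => simp [cf_zero]
  | insert a s ha ih => rw [Finset.sum_insert ha, Finset.sum_insert ha, cf_add, ih]

theorem cf_up {e : ℕ} (f p : MvPolynomial (Fin (e + 1)) ℂ) (a : MvPolynomial (Fin e) ℂ) (i : ℕ) :
    cf f (up a * p) i = a * cf f p i := by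
  simp only [cf, map_mul, fs_up]
  rw [← Polynomial.smul_eq_C_mul, map_smul, Polynomial.coeff_smul, smul_eq_mul]

theorem cf_mul {e δ : ℕ} (f : MvPolynomial (Fin (e + 1)) ℂ) (hf : Mo f δ)
    (p : MvPolynomial (Fin (e + 1)) ℂ) (i : ℕ) : cf f (f * p) i = 0 := by
  have h : finSuccEquiv ℂ e (f * p) ∈ LinearMap.ker
      (Polynomial.modByMonicHom (finSuccEquiv ℂ e f)) := by
    rw [Polynomial.mem_ker_modByMonic (fs_monic f hf).1, map_mul]
    exact dvd_mul_right _ _
  rw [LinearMap.mem_ker] at h
  rw [cf, h, Polynomial.coeff_zero]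

theorem fs_sec {e δ : ℕ} (v : Fin δ → MvPolynomial (Fin e) ℂ) :
    finSuccEquiv ℂ e (sec v) = ∑ i : Fin δ, Polynomial.C (v i) * Polynomial.X ^ (i : ℕ) := by
  simp only [sec, map_sum, map_mul, map_pow, finSuccEquiv_X_zero, fs_up]

theorem cf_sec {e δ : ℕ} (f : MvPolynomial (Fin (e + 1)) ℂ) (hf : Mo f δ)
    (v : Fin δ → MvPolynomial (Fin e) ℂ) (i : Fin δ) : cf f (sec v) i = v i := by
  have hdeg : (finSuccEquiv ℂ e (sec v)).degree < (finSuccEquiv ℂ e f).degree := by
    rw [Polynomial.degree_eq_natDegree (fs_monic f hf).1.ne_zero, (fs_monic f hf).2, fs_sec,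
      ← Polynomial.mem_degreeLT]
    refine Submodule.sum_mem _ fun j _ => ?_
    rw [Polynomial.mem_degreeLT]
    exact lt_of_le_of_lt (Polynomial.degree_C_mul_X_pow_le _ _) (by exact_mod_cast j.2)
  have h1 : Polynomial.modByMonicHom (finSuccEquiv ℂ e f) (finSuccEquiv ℂ e (sec v)) =
      finSuccEquiv ℂ e (sec v) :=
    (Polynomial.modByMonic_eq_self_iff (fs_monic f hf).1).mpr hdeg
  rw [cf, h1, fs_sec, Polynomial.finsetSum_coeff]
  simp only [Polynomial.coeff_C_mul_X_pow]
  rw [Finset.sum_eq_single i]
  · simp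
  · intro j _ hj
    rw [if_neg]
    intro h
    exact hj (Fin.ext h.symm)
  · intro h; exact absurd (Finset.mem_univ _) h

theorem eq_sec {e δ : ℕ} (f : MvPolynomial (Fin (e + 1)) ℂ) (hf : Mo f δ)
    (p : MvPolynomial (Fin (e + 1)) ℂ) :
    ∃ q, p = sec (fun i : Fin δ => cf f p i) + f * q := by
  have hm := (fs_monic f hf).1
  refine ⟨(finSuccEquiv ℂ e).symm ((finSuccEquiv ℂ e p) /ₘ (finSuccEquiv ℂ e f)), ?_⟩
  apply (finSuccEquiv ℂ e).injective
  rw [map_add, map_mul, AlgEquiv.apply_symm_apply, fs_sec]
  conv_lhs => rw [← Polynomial.modByMonic_add_div (finSuccEquiv ℂ e p) (finSuccEquiv ℂ e f)]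
  congr 1
  have hdeg : (finSuccEquiv ℂ e p %ₘ finSuccEquiv ℂ e f).degree < (δ : WithBot ℕ) := by
    have := Polynomial.degree_modByMonic_lt (finSuccEquiv ℂ e p) hm
    rwa [Polynomial.degree_eq_natDegree hm.ne_zero, (fs_monic f hf).2] at this
  ext1 n
  rw [Polynomial.finsetSum_coeff]
  simp only [Polynomial.coeff_C_mul_X_pow]
  by_cases hn : n < δ
  · rw [Finset.sum_eq_single (⟨n, hn⟩ : Fin δ)]
    · simp [cf, Polynomial.modByMonicHom]
    · intro j _ hj
      rw [if_neg]
      intro h
      exact hj (Fin.ext h.symm)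
    · intro h; exact absurd (Finset.mem_univ _) h
  · rw [Finset.sum_eq_zero]
    · exact Polynomial.coeff_eq_zero_of_degree_lt
        (lt_of_lt_of_le hdeg (by exact_mod_cast not_lt.mp hn))
    · intro j _
      rw [if_neg]
      intro h
      exact hn (h ▸ j.2)

theorem hAEQ (hARS : StARS) : StAEQ := by
  classical
  intro e ρ δ f hδ hf L hfL c c' hM hM'
  obtain ⟨Res, hR1, hR2, hR3⟩ := hARS e δ f hδ hf
  obtain ⟨t, g, hg, htL, hti, hte⟩ := hM
  obtain ⟨t', g', hg', htL', hti', hte'⟩ := hM'
  -- pairing in coordinates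
  have bil : ∀ (φ x : Fin ρ → MvPolynomial (Fin (e + 1)) ℂ),
      Res (∑ l, φ l * x l) =
        ∑ q : Fin ρ × Fin δ, cf f (φ q.1) q.2 * Res (X 0 ^ (q.2 : ℕ) * x q.1) := by
    intro φ x
    rw [map_sum, Fintype.sum_prod_type]
    refine Finset.sum_congr rfl fun l _ => ?_
    obtain ⟨q, hq⟩ := eq_sec f hf (φ l)
    conv_lhs => rw [hq]
    rw [add_mul, map_add, mul_assoc, hR1, add_zero, sec, Finset.sum_mul, map_sum]
    refine Finset.sum_congr rfl fun i _ => ?_
    rw [mul_assoc, hR2]
  -- x is divisible by f iff its coordinates vanish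
  have vz : ∀ x : Fin ρ → MvPolynomial (Fin (e + 1)) ℂ,
      (∀ q : Fin ρ × Fin δ, cf f (x q.1) q.2 = 0) → ∃ y, x = f • y := by
    intro x hx
    choose q hq using fun l => eq_sec f hf (x l)
    refine ⟨q, ?_⟩
    funext l
    rw [hq l]
    have : sec (fun i : Fin δ => cf f (x l) i) = 0 := by
      unfold sec
      refine Finset.sum_eq_zero fun i _ => ?_
      have h1 : cf f (x l) i = 0 := hx (l, i)
      simp only [h1, up, map_zero, zero_mul]
    rw [this, zero_add]
    rfl
  let K := FractionRing (MvPolynomial (Fin e) ℂ)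
  let am : MvPolynomial (Fin e) ℂ →+* K := algebraMap _ _
  have amI : Function.Injective am := IsFractionRing.injective _ _
  let T : Matrix (Fin c) (Fin ρ × Fin δ) K := fun j q => am (Res (X 0 ^ (q.2 : ℕ) * t j q.1))
  have hT : LinearIndependent K T := by
    rw [← LinearIndependent.iff_fractionRing (R := MvPolynomial (Fin e) ℂ) (K := K),
      Fintype.linearIndependent_iff]
    intro α hα
    have h1 : ∀ q : Fin ρ × Fin δ, ∑ j, α j * Res (X 0 ^ (q.2 : ℕ) * t j q.1) = 0 := by
      intro q
      apply amI
      have := congrFun hα q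
      rw [Finset.sum_apply] at this
      rw [map_zero, map_sum]
      simp only [Pi.smul_apply, Pi.zero_apply, Algebra.smul_def] at this
      simp only [map_mul]
      exact this
    have h2 : ∃ y : Fin ρ → MvPolynomial (Fin (e + 1)) ℂ, ∑ j, up (α j) • t j = f • y := by
      have h3 : ∀ q : Fin ρ × Fin δ,
          Res (X 0 ^ (q.2 : ℕ) * (∑ j, up (α j) • t j) q.1) = 0 := by
        intro q
        rw [← h1 q, Finset.sum_apply, Finset.mul_sum, map_sum]
        refine Finset.sum_congr rfl fun j _ => ?_
        rw [← hR2, Pi.smul_apply, smul_eq_mul]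
        congr 1
        ring
      have h4 : ∀ l, f ∣ (∑ j, up (α j) • t j) l := by
        intro l
        refine hR3 _ fun k => ?_
        have := bil (Pi.single l (X 0 ^ k)) (∑ j, up (α j) • t j)
        rw [Finset.sum_eq_single l] at this
        · rw [Pi.single_eq_same] at this
          rw [this]
          refine Finset.sum_eq_zero fun q _ => ?_
          rw [h3 q, mul_zero]
        · intro l' _ hl'
          rw [Pi.single_eq_of_ne hl', zero_mul]
        · intro h; exact absurd (Finset.mem_univ _) h
      choose y hy using h4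
      exact ⟨y, funext hy⟩
    exact fun j => congrFun (hti α h2) j
  have hrk : T.rank = c := by
    have := hT.rank_matrix
    simpa using this
  let Z := LinearMap.ker T.mulVecLin
  have hZ : Module.finrank K Z + c = ρ * δ := by
    have h1 := LinearMap.finrank_range_add_finrank_ker T.mulVecLin
    have h2 : Module.finrank K (LinearMap.range T.mulVecLin) = c := hrk
    rw [h2, Module.finrank_fintype_fun_eq_card, Fintype.card_prod, Fintype.card_fin,
      Fintype.card_fin] at h1
    rw [add_comm]; exact h1
  let w : Fin c' → (Fin ρ × Fin δ → K) := fun j q => am (cf f (t' j q.1) q.2)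
  have hw : LinearIndependent K w := by
    rw [← LinearIndependent.iff_fractionRing (R := MvPolynomial (Fin e) ℂ) (K := K),
      Fintype.linearIndependent_iff]
    intro α hα
    refine fun j => congrFun (hti' α (vz _ fun q => ?_)) j
    apply amI
    have := congrFun hα q
    rw [Finset.sum_apply] at this
    simp only [Pi.smul_apply, Pi.zero_apply, Algebra.smul_def] at this
    rw [map_zero, ← this, Finset.sum_apply, cf_sum, map_sum]
    refine Finset.sum_congr rfl fun j _ => ?_
    rw [Pi.smul_apply, smul_eq_mul, cf_up, map_mul]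
  have key : ∀ (φ : Fin ρ → MvPolynomial (Fin (e + 1)) ℂ) (j : Fin c),
      (T.mulVec fun q => am (cf f (φ q.1) q.2)) j = am (Res (∑ l, φ l * t j l)) := by
    intro φ j
    rw [bil, map_sum]
    simp only [Matrix.mulVec, dotProduct]
    refine Finset.sum_congr rfl fun q _ => ?_
    rw [map_mul, mul_comm]
  have hwZ : ∀ j, w j ∈ Z := by
    intro j
    rw [LinearMap.mem_ker]
    funext i
    rw [Matrix.mulVecLin_apply]
    rw [show w j = fun q => am (cf f (t' j q.1) q.2) from rfl, key]
    obtain ⟨q, hq⟩ := htL' j (t i) (htL i)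
    rw [hq, hR1, map_zero]
    rfl
  have hspan : Submodule.span K (Set.range w) = Z := by
    refine le_antisymm (Submodule.span_le.mpr ?_) ?_
    · rintro _ ⟨j, rfl⟩; exact hwZ j
    · intro v hv
      obtain ⟨b, hb⟩ := IsLocalization.exist_integer_multiples_of_finite
        (nonZeroDivisors (MvPolynomial (Fin e) ℂ)) v
      choose v' hv' using hb
      let φ : Fin ρ → MvPolynomial (Fin (e + 1)) ℂ := fun l => sec (fun i => v' (l, i))
      have hφ : ∀ q : Fin ρ × Fin δ, cf f (φ q.1) q.2 = v' q := by
        intro q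
        exact cf_sec f hf (fun i => v' (q.1, i)) q.2
      have hb0 : (b : MvPolynomial (Fin e) ℂ) ≠ 0 := nonZeroDivisors.ne_zero b.2
      have hRt : ∀ j, Res (∑ l, φ l * t j l) = 0 := by
        intro j
        apply amI
        rw [← key, map_zero]
        have h1 : (fun q => am (cf f (φ q.1) q.2)) = am b • v := by
          funext q
          rw [hφ q]
          have := hv' q
          rw [Algebra.smul_def] at this
          exact this
        rw [h1, Matrix.mulVec_smul]
        have h2 : T.mulVec v = 0 := by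
          have := LinearMap.mem_ker.mp hv
          rwa [Matrix.mulVecLin_apply] at this
        rw [h2, smul_zero]
        rfl
      have hQ : ∀ x ∈ L, Res (∑ l, φ l * x l) = 0 := by
        intro x hx
        obtain ⟨α, y, hα⟩ := hte x hx
        have h1 : g * Res (∑ l, φ l * x l) = 0 := by
          rw [← hR2, Finset.mul_sum]
          have h2 : ∀ l, up g * (φ l * x l) =
              ∑ j, up (α j) * (φ l * t j l) + f * (φ l * y l) := by
            intro l
            have h3 := congrFun hα l
            simp only [Pi.smul_apply, Pi.add_apply, Finset.sum_apply, smul_eq_mul] at h3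
            calc up g * (φ l * x l) = φ l * (up g * x l) := by ring
              _ = φ l * (∑ j, up (α j) * t j l + f * y l) := by rw [h3]
              _ = _ := by
                rw [mul_add, Finset.mul_sum]
                congr 1
                · exact Finset.sum_congr rfl fun j _ => by ring
                · ring
          simp only [h2]
          rw [Finset.sum_add_distrib, map_add, ← Finset.mul_sum, hR1, add_zero,
            Finset.sum_comm, map_sum]
          refine Finset.sum_eq_zero fun j _ => ?_
          rw [← Finset.mul_sum, hR2, hRt, mul_zero]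
        exact (mul_eq_zero.mp h1).resolve_left hg
      have hdual : φ ∈ {φ : Fin ρ → MvPolynomial (Fin (e + 1)) ℂ | ∀ x ∈ L, f ∣ ∑ i, φ i * x i} := by
        intro x hx
        refine hR3 _ fun k => ?_
        have h1 := hQ (((X 0 : MvPolynomial (Fin (e + 1)) ℂ) ^ k) • x)
          (L.smul_mem ((X 0 : MvPolynomial (Fin (e + 1)) ℂ) ^ k) hx)
        have h2 : X 0 ^ k * ∑ l, φ l * x l =
            ∑ l, φ l * (((X 0 : MvPolynomial (Fin (e + 1)) ℂ) ^ k) • x) l := by
          rw [Finset.mul_sum]
          refine Finset.sum_congr rfl fun l _ => ?_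
          rw [Pi.smul_apply, smul_eq_mul]
          ring
        rw [h2, h1]
      obtain ⟨α, y, hα⟩ := hte' φ hdual
      have hgv : ∀ q, am (g' * b) * v q = ∑ j, am (α j) * w j q := by
        intro q
        have h1 : g' * v' q = ∑ j, α j * cf f (t' j q.1) q.2 := by
          have h2 := congrArg (fun z => cf f (z q.1) q.2) hα
          simp only [Pi.smul_apply, Pi.add_apply, Finset.sum_apply, smul_eq_mul] at h2
          rw [cf_up, hφ, cf_add, cf_sum, cf_mul f hf, add_zero] at h2
          rw [h2]
          exact Finset.sum_congr rfl fun j _ => cf_up _ _ _ _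
        have h3 : am (v' q) = am b * v q := by
          have := hv' q
          rw [Algebra.smul_def] at this
          exact this
        rw [map_mul, mul_assoc, ← h3, ← map_mul, h1, map_sum]
        exact Finset.sum_congr rfl fun j _ => map_mul _ _ _
      have hne : am (g' * b) ≠ 0 := by
        rw [Ne, map_eq_zero_iff _ amI]
        exact mul_ne_zero hg' hb0
      have hv2 : v = ∑ j, ((am (g' * b))⁻¹ * am (α j)) • w j := by
        funext q
        rw [Finset.sum_apply]
        simp only [Pi.smul_apply, smul_eq_mul, mul_assoc]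
        rw [← Finset.mul_sum, ← hgv q, inv_mul_cancel_left₀ hne]
      rw [hv2]
      exact Submodule.sum_mem _ fun j _ => Submodule.smul_mem _ _ (Submodule.subset_span ⟨j, rfl⟩)
  have hfin : Module.finrank K Z = c' := by
    rw [← hspan, finrank_span_eq_card hw, Fintype.card_fin]
  omega

end Pool.Agent.Helper85.KPA
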