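import Pool.Agent.Helper85.KPA.StC

/-!
# PROJECT KP, chapter A, part C: assembly of `StCOP`
-/

set_option autoImplicit false

namespace Pool.Agent.Helper85.KPA

open Pool.Agent.Helper5.KPA Pool.Agent.Helper52.KP MvPolynomial

theorem mulQ {C : Cone} (hC : Good C) {k k' : ℕ} {x y : QQ C.m} (hx : x ∈ QR C k)
    (hy : y ∈ QR C k') : x * y ∈ QR C (k + k') := by
  intro l
  rw [Polynomial.coeff_mul]
  exact Submodule.sum_mem _ fun p _ => hC.mul k k' _ _ (hx _) (hy _)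

theorem oneQ {C : Cone} (hC : Good C) : (1 : QQ C.m) ∈ QR C 0 := by
  intro l
  rw [Polynomial.coeff_one]
  split_ifs
  · exact hC.one
  · exact (C.R 0).zero_mem

theorem powQ {C : Cone} (hC : Good C) (j : ℕ) {k : ℕ} {x : QQ C.m} (hx : x ∈ QR C k) :
    x ^ j ∈ QR C (j * k) := by
  induction j with
  | zero => simpa using oneQ hC
  | succ j ih =>
    rw [pow_succ, Nat.succ_mul]
    exact mulQ hC ih hx

theorem powR {C : Cone} (hC : Good C) (j : ℕ) {k : ℕ} {x : MvPolynomial (Fin C.m) ℂ}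
    (hx : x ∈ C.R k) : x ^ j ∈ C.R (j * k) := by
  induction j with
  | zero => simpa using hC.one
  | succ j ih =>
    rw [pow_succ, Nat.succ_mul]
    exact hC.mul _ _ _ _ ih hx

theorem cQ {C : Cone} {k : ℕ} {x : MvPolynomial (Fin C.m) ℂ} (hx : x ∈ C.R k) :
    (Polynomial.C x : QQ C.m) ∈ QR C k := by
  intro l
  rw [Polynomial.coeff_C]
  split_ifs
  · exact hx
  · exact (C.R k).zero_mem

theorem evQ {C : Cone} {k : ℕ} {x : QQ C.m} (hx : x ∈ QR C k) (τ : ℂ) :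
    x.eval (MvPolynomial.C τ) ∈ C.R k := by
  rw [Polynomial.eval_eq_sum]
  refine Submodule.sum_mem _ fun l _ => ?_
  change x.coeff l * MvPolynomial.C τ ^ l ∈ C.R k
  rw [← map_pow, mul_comm, ← MvPolynomial.smul_eq_C_mul]
  exact (C.R k).smul_mem _ (hx l)

theorem sz_nonneg (C : Cone) (z : Fin C.m → ℂ) : 0 ≤ C.sz z :=
  Finset.sum_nonneg fun _ _ => norm_nonneg _

theorem exX {C : Cone} (hC : Good C) : ∃ i, C.X i ≠ 0 := by
  have h : ∃ z, z ∈ C.U := by
    by_contra h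
    push Not at h
    refine hC.Δ0 (MvPolynomial.funext fun z => ?_)
    have := h z
    simp only [Cone.U, Set.mem_ofPred_eq, not_not] at this
    simpa using this
  obtain ⟨z, hz⟩ := h
  by_contra h
  push Not at h
  have h1 := hC.Xpos z hz
  have : C.sz z = 0 := Finset.sum_eq_zero fun i _ => by rw [h i]; simp
  linarith

theorem hCOP (hCHM : StCHM) (hCSP : StCSP) (hCBD : StCBD) (hCND : StCND) (hCXG : StCXG)
    (hCAP : StCAP) : StCOP := by
  intro C hC r F hF k₀ u hu hu0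
  obtain ⟨h1, h2, h3, h4⟩ := hCHM C.m C.w
  obtain ⟨hNoe, hDd⟩ := hCND C hC r F hF
  have hXG := hCXG C hC r F hF
  have hd : 0 < C.n * r := Nat.mul_pos hC.hn hF.hr
  generalize C.n * r = d at hNoe hDd hXG hd
  have psQ : ∀ k x, x ∈ QR C k → Ps C.w x = Polynomial.C x * Polynomial.X ^ k := by
    intro k x hx
    rw [h3]
    intro l
    rw [← h1]
    exact hC.hom k _ (hx l)
  have hf : u ^ d ∈ QR C (d * k₀) := powQ hC d hu
  have hDm : ∀ k x, x ∈ QR C (d * k) → x ∈ Dd C d := fun k x hx => Algebra.subset_adjoin ⟨k, hx⟩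
  have hfD : u ^ d ∈ Dd C d := hDm k₀ _ hf
  let L : Submodule ℂ (QQ C.m) :=
    (C.R 1).map (Polynomial.CAlgHom : MvPolynomial (Fin C.m) ℂ →ₐ[ℂ] QQ C.m).toLinearMap
  obtain ⟨l, hlL, hl0, hl⟩ := hCAP (QQ C.m) (Dd C d) L (Set.range fun i => Polynomial.C (C.X i)) d
    (u ^ d) hNoe hd hfD (by
      rintro _ ⟨i, rfl⟩
      exact ⟨C.X i, hC.XR i, rfl⟩) (by
      obtain ⟨i, hi⟩ := exX hC
      intro h
      have h5 : (Polynomial.C (C.X i) : QQ C.m) ∈ L := ⟨C.X i, hC.XR i, rfl⟩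
      rw [h, Submodule.mem_bot, Polynomial.C_eq_zero] at h5
      exact hi h5) (by
      rintro _ ⟨a, ha, rfl⟩ _ ⟨b, hb, rfl⟩ i hi
      have h5 : a ^ i * b ^ (d - i) ∈ C.R (d * 1) := by
        have := hC.mul _ _ _ _ (powR hC i ha) (powR hC (d - i) hb)
        rwa [← add_mul, Nat.add_sub_cancel' hi] at this
      have h6 := hDm 1 _ (cQ h5)
      rw [map_mul, map_pow, map_pow] at h6
      exact h6) (by
      intro y hy H
      refine hXG k₀ (u ^ d) hf (pow_ne_zero _ hu0) y hy fun i => ?_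
      obtain ⟨v, hv, hv2⟩ := H (Polynomial.C (C.X i)) ⟨i, rfl⟩
      refine ⟨v, hv, ?_⟩
      rw [map_pow]
      exact hv2)
  obtain ⟨ℓ, hℓ, rfl⟩ := hlL
  change (Polynomial.C ℓ : QQ C.m) ≠ 0 at hl0
  change ∀ y ∈ Dd C d, (∃ v ∈ Dd C d, (Polynomial.C ℓ : QQ C.m) ^ d * y = u ^ d * v) →
    ∃ v ∈ Dd C d, y = u ^ d * v at hl
  refine ⟨ℓ, hℓ, fun h => hl0 (by rw [h, map_zero]), ?_⟩
  intro a k k' x z hx hz hxz hx0
  have hℓD : (Polynomial.C ℓ : QQ C.m) ^ d ∈ Dd C d := by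
    rw [← map_pow]
    exact hDm 1 _ (cQ (powR hC d hℓ))
  have key : ∀ (a : ℕ) (y : QQ C.m), y ∈ Dd C d →
      (∃ v ∈ Dd C d, ((Polynomial.C ℓ : QQ C.m) ^ d) ^ a * y = u ^ d * v) →
      ∃ v ∈ Dd C d, y = u ^ d * v := by
    intro a
    induction a with
    | zero =>
      intro y hy ⟨v, hv, h⟩
      exact ⟨v, hv, by simpa using h⟩
    | succ a ih =>
      intro y hy ⟨v, hv, h⟩
      refine ih y hy (hl _ ((Dd C d).mul_mem ((Dd C d).pow_mem hℓD a) hy) ⟨v, hv, ?_⟩)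
      rw [← h, pow_succ']
      ring
  obtain ⟨v, hv, hxv⟩ := key a (x ^ d) (hDm k _ (powQ hC d hx))
    ⟨z ^ d, hDm k' _ (powQ hC d hz), by
      rw [← pow_mul, mul_comm d a, pow_mul, ← mul_pow, hxz, mul_pow]⟩
  have hPs := congrArg (Ps C.w) hxv
  rw [map_mul, psQ _ _ (powQ hC d hx), psQ _ _ hf] at hPs
  have hco := congrArg (fun p => Polynomial.coeff p (d * k)) hPs
  simp only [Polynomial.coeff_C_mul, Polynomial.coeff_X_pow, if_true, mul_one, mul_assoc,
    Polynomial.coeff_X_pow_mul'] at hco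
  by_cases hkk : d * k₀ ≤ d * k
  swap
  · rw [if_neg hkk, mul_zero] at hco
    exact absurd hco (pow_ne_zero _ hx0)
  rw [if_pos hkk, ← Nat.mul_sub] at hco
  have hk : k₀ ≤ k := Nat.le_of_mul_le_mul_left hkk hd
  have hw : (Ps C.w v).coeff (d * (k - k₀)) ∈ QR C (d * (k - k₀)) := (hDd v hv _).1
  generalize (Ps C.w v).coeff (d * (k - k₀)) = w at hco hw
  have hdvd : u ∣ x := by
    have : u ^ d ∣ x ^ d := ⟨w, hco⟩
    exact (IsIntegrallyClosed.pow_dvd_pow_iff hd.ne').mp this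
  obtain ⟨y, rfl⟩ := hdvd
  have hyw : y ^ d = w := by
    rw [mul_pow] at hco
    exact mul_left_cancel₀ (pow_ne_zero _ hu0) hco
  have hy0 : Ps C.w y = Polynomial.C y * Polynomial.X ^ (k - k₀) := by
    have h5 := psQ _ _ hx
    rw [map_mul, psQ _ _ hu] at h5
    have h6 : (Polynomial.C u * Polynomial.X ^ k₀ : Polynomial (QQ C.m)) ≠ 0 :=
      mul_ne_zero (by rwa [Ne, Polynomial.C_eq_zero]) (pow_ne_zero _ Polynomial.X_ne_zero)
    refine mul_left_cancel₀ h6 (h5.trans ?_)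
    have h7 : (Polynomial.X : Polynomial (QQ C.m)) ^ k =
        Polynomial.X ^ k₀ * Polynomial.X ^ (k - k₀) := by rw [← pow_add, Nat.add_sub_cancel' hk]
    rw [h7, map_mul]
    ring
  refine ⟨hk, y, ?_, rfl⟩
  refine hCSP C.m (C.R (k - k₀)) y fun τ => ?_
  refine hCBD C hC (k - k₀) _ ?_ ?_
  · intro c z'
    have h5 : ∀ l, ev (y.coeff l) (scl C.w c z') = c ^ (k - k₀) * ev (y.coeff l) z' := by
      intro l
      exact (h1 _ _).mpr ((h3 y _).mp hy0 l) c z'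
    simp only [ev] at h5 ⊢
    rw [Polynomial.eval_eq_sum, Polynomial.sum, map_sum, map_sum, Finset.mul_sum]
    refine Finset.sum_congr rfl fun l _ => ?_
    rw [map_mul, map_mul, h5 l, ← map_pow, eval_C, eval_C]
    ring
  · have hw' := evQ hw τ
    obtain ⟨B, hB⟩ := hC.bdd _ _ hw'
    refine ⟨max B 1, fun z' _ => ?_⟩
    have hB1 : (1 : ℝ) ≤ max B 1 := le_max_right _ _
    have hs := sz_nonneg C z'
    have h5 : ‖ev (y.eval (MvPolynomial.C τ)) z'‖ ^ d ≤ (max B 1 * C.sz z' ^ (k - k₀)) ^ d := by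
      have h6 : ev (y.eval (MvPolynomial.C τ)) z' ^ d = ev (w.eval (MvPolynomial.C τ)) z' := by
        rw [← hyw, Polynomial.eval_pow]
        exact (map_pow (MvPolynomial.eval z') _ _).symm
      rw [← norm_pow, h6, mul_pow, ← pow_mul, mul_comm (k - k₀) d]
      refine (hB z').trans ?_
      refine mul_le_mul_of_nonneg_right ?_ (pow_nonneg hs _)
      exact (le_max_left _ _).trans (le_self_pow₀ hB1 hd.ne')
    exact le_of_pow_le_pow_left₀ hd.ne' (by positivity) h5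

end Pool.Agent.Helper85.KPA
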