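import Pool.Agent.Helper5.KPA.Itf2
import Pool.Agent.Helper52.KP.StM

/-!
# PROJECT KP, chapter A, part C: boundedness and coprimality

`QQ m` = polynomials in `τ` over `P = MvPolynomial (Fin m) ℂ`, `QR C k` = those with coefficients in `R k`.
All modules are independent (statements used are hypotheses).
TARGETS: `StCBD`, `StCOP` (Helper5/KPA/Itf2.lean).
-/

set_option autoImplicit false

namespace Pool.Agent.Helper85.KPA

open Pool.Agent.Helper5.KPA Pool.Agent.Helper52.KP MvPolynomial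

/-- `z_j ↦ T^(w_j) z_j` on polynomials in `z` -/
noncomputable def Ps0 {m : ℕ} (w : Fin m → ℕ) :
    MvPolynomial (Fin m) ℂ →ₐ[ℂ] Polynomial (MvPolynomial (Fin m) ℂ) :=
  aeval fun j => Polynomial.C (X j) * Polynomial.X ^ w j

/-- `Ps0` with values in `Polynomial (QQ m)` -/
noncomputable def Ps1 {m : ℕ} (w : Fin m → ℕ) : MvPolynomial (Fin m) ℂ →+* Polynomial (QQ m) :=
  (Polynomial.mapRingHom (Polynomial.C : MvPolynomial (Fin m) ℂ →+* QQ m)).comp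
    (Ps0 w : MvPolynomial (Fin m) ℂ →ₐ[ℂ] Polynomial (MvPolynomial (Fin m) ℂ)).toRingHom

/-- `z_j ↦ T^(w_j) z_j`, `τ ↦ τ` on `QQ m` -/
noncomputable def Ps {m : ℕ} (w : Fin m → ℕ) : QQ m →+* Polynomial (QQ m) :=
  Polynomial.eval₂RingHom (R := MvPolynomial (Fin m) ℂ) (S := Polynomial (QQ m)) (Ps1 w)
    (Polynomial.C (Polynomial.X : QQ m))

/-- the algebra generated by all `QR C (d k)` -/
noncomputable def Dd (C : Cone) (d : ℕ) : Subalgebra ℂ (QQ C.m) :=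
  Algebra.adjoin ℂ {x | ∃ k, x ∈ QR C (d * k)}

/-- MODULE CHM (120 lines; homogeneity).
PROOF.  (1) For `c : ℂ`, `z`: `eval z (eval (C c) (Ps0 w f)) = ev f (scl w c z)` (both sides are algebra homomorphisms
in `f`, compare them on `X j`).  So `Ps0 w f = C f * X ^ k` implies the left side.  Conversely, if the left side
holds then the polynomials `Ps0 w f` and `C f * X ^ k` over the domain `P` have the same value at every constant
`C c`, `c ∈ ℂ` (`MvPolynomial.funext`), so they are equal (`Polynomial.eq_of_infinite_eval_eq`).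
(2) Both sides are additive in `x`; for `x = monomial l a` (`= C a * X ^ l`):
`Ps w x = map C (Ps0 w a) * C (X ^ l)`, coefficient `C ((Ps0 w a).coeff n) * X ^ l`.
(3) from (2) (compare all coefficients).
(4) `eval 1` of `Ps0 w` is the identity (compare on the variables), so the sum over `n` of the coefficients is
the identity; or: `x ↦ (Ps w x).eval 1` is a ring homomorphism which is the identity on `X`, on `C (C c)` and
on `C (X j)`. -/
def StCHM : Prop := ∀ (m : ℕ) (w : Fin m → ℕ),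
  (∀ (f : MvPolynomial (Fin m) ℂ) (k : ℕ), (∀ (c : ℂ) z, ev f (scl w c z) = c ^ k * ev f z) ↔
    Ps0 w f = Polynomial.C f * Polynomial.X ^ k) ∧
  (∀ (x : QQ m) (n l : ℕ), ((Ps w x).coeff n).coeff l = (Ps0 w (x.coeff l)).coeff n) ∧
  (∀ (x : QQ m) (k : ℕ), Ps w x = Polynomial.C x * Polynomial.X ^ k ↔
    ∀ l, Ps0 w (x.coeff l) = Polynomial.C (x.coeff l) * Polynomial.X ^ k) ∧
  ∀ x : QQ m, (Ps w x).eval 1 = x

/-- MODULE CDN (40 lines; density).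
PROOF.  `{z : ev P z ≠ 0}` is dense: let `z₀` be any point and `z₁` with `ev P z₁ ≠ 0` (`MvPolynomial.funext`); on the
line `z₀ + s (z₁ - z₀)` the function `s ↦ ev P` is a nonzero polynomial in `s`, so it does not vanish on a
punctured neighbourhood of `s = 0`.  (Compare the module NUL of Helper16: the zero set is a null set, so the
complement is dense.)  Then `closure` and continuity (`isClosed_le`). -/
def StCDN : Prop := ∀ (m : ℕ) (P : MvPolynomial (Fin m) ℂ) (a b : (Fin m → ℂ) → ℝ), P ≠ 0 →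
  Continuous a → Continuous b → (∀ z, ev P z ≠ 0 → a z ≤ b z) → ∀ z, a z ≤ b z

/-- MODULE CDV (100 lines, uses StCDN; bounded division).
PROOF.  `P = MvPolynomial (Fin m) ℂ` is a UFD: `N = g N'`, `D = g D'` with `N'`, `D'` relatively prime, `g ≠ 0`
(`D ≠ 0`; for instance `IsLocalization`/`UniqueFactorizationMonoid.exists_reduced_factors'`).  Where
`ev (P g) z ≠ 0`: `‖N'(z)‖ ≤ B z ‖D'(z)‖`, so everywhere (StCDN).  If `D'` is not a unit let `π` be an irreducible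
(prime) factor.  `N'` vanishes on the zero set of `π`, so `N'` is in the radical of `(π)`
(`MvPolynomial.vanishingIdeal_zeroLocus_eq_radical`), and `(π)` is prime: `π ∣ N'`, a contradiction.  So `D'` is a
unit and `D ∣ N`. -/
def StCDV : Prop := ∀ (m : ℕ) (N D P : MvPolynomial (Fin m) ℂ) (B : (Fin m → ℂ) → ℝ),
  Continuous B → P ≠ 0 → D ≠ 0 → (∀ z, ev P z ≠ 0 → ‖ev N z‖ ≤ B z * ‖ev D z‖) → D ∣ N

/-- MODULE CSP (40 lines).
PROOF.  Suppose `φ` is a linear functional on `P ⧸ N` (or on `P`, vanishing on `N`).  `∑_l φ(y_l) τ^l = φ(y(τ)) = 0`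
for all `τ ∈ ℂ`, so the polynomial `∑ φ(y_l) X^l ∈ ℂ[X]` has infinitely many zeros and all `φ(y_l) = 0`.  As this
holds for all `φ`, the class of `y_l` in `P ⧸ N` is zero (`Module.forall_dual_apply_eq_zero_iff`). -/
def StCSP : Prop := ∀ (m : ℕ) (N : Submodule ℂ (MvPolynomial (Fin m) ℂ)) (y : QQ m),
  (∀ τ : ℂ, y.eval (MvPolynomial.C τ) ∈ N) → ∀ l, y.coeff l ∈ N

/-- MODULE CBD (80 lines, uses StMOM, StNUL of Helper52, StCDN).
PROOF.  `h z = ev f z * ev J z` is entire and `h (scl w c z) = c^(k + jd) h z` (`Good.Jhom`).  Let `u ≤ b sz` on `U`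
(`Good.ubd`).  On `U`: `‖h‖² e^{-b sz} ≤ B² sz^(2k) ‖J‖² e^{-u}`, integrable on `U` by the third part of `StMOM`
with `q = 2k`; `Uᶜ` is a null set (`StNUL`).  `Good.extd`: `f' ∈ R k` with `f J = f' J` as functions, so as
polynomials, and `J ≠ 0` (`Good.J0`, `U` is not empty as `Δ ≠ 0`), so `f = f'`.  (StCDN is not really
needed.) -/
def StCBD0 : Prop := StCBD

/-- MODULE CNP (120 lines, uses StCDV StCBD StCHM; the `X_j` are not all proportional).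
PROOF.  Suppose `X_j^d = c_j X_(i₀)^d` for all `j`.  Then `‖X_j(z)‖ = ‖c_j‖^(1/d) ‖X_(i₀)(z)‖`, so
`sz z ≤ K ‖X_(i₀)(z)‖` for all `z`, and `X_(i₀)` has no zero in `U` (`Good.Xpos`).  Let `f ∈ R k`.
`‖f(z)‖ ≤ B sz^k ≤ B K^k ‖X_(i₀)(z)^k‖`, so `X_(i₀)^k ∣ f` (StCDV with `P = 1`): `f = g X_(i₀)^k`.  On `U`:
`‖g‖ ≤ B K^k`.  `g` is homogeneous of weight `0`: `Ps0 f = C f T^k`, `Ps0 (X_(i₀)^k) = C (X_(i₀)^k) T^k`, so
`C (X_(i₀)^k) T^k Ps0 g = C (X_(i₀)^k) T^k C g`, cancel.  By StCBD `g ∈ R 0`, so `g` is constant (`Good.cst`).  So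
`R k` is spanned by `X_(i₀)^k` and `finrank (R k) ≤ 1`.  As `m = 2 n ≥ 2`, `finrank (R k) / k^(m-1) ≤ 1 / k^(m-1) → 0`,
contradicting `Good.dim` (`rd > 0`). -/
def StCNP : Prop := ∀ C : Cone, Good C → ∀ d : ℕ, 0 < d → ∀ i₀, C.X i₀ ≠ 0 →
  ¬ ∀ j, ∃ c : ℂ, C.X j ^ d = MvPolynomial.C c * C.X i₀ ^ d

/-- MODULE CXD (180 lines, uses StCDN StCDV StCBD StCHM StCNP; STRONG).
PROOF.  There is `i₀` with `X_(i₀) ≠ 0` (`Good.Xpos`, `Good.Δ0`).  Let `v_i` be given for all `i`.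
`f X_j^d v_i = X_i^d X_j^d y = f X_i^d v_j`, so `X_j^d v_i = X_i^d v_j`, and for the coefficients of `τ^l`:
`X_j^d v_(i,l) = X_i^d v_(j,l)` in `P`.
Case `k₀ = k + 1`: all `v_(i,l) ∈ R 0` are constants (`Good.cst`); `v_(i₀) ≠ 0` as `X_(i₀)^d y ≠ 0`; choose `l` with
`v_(i₀,l) = c₀ ≠ 0`; then `X_j^d = (c_j / c₀) X_(i₀)^d` for all `j`, contradicting StCNP.
Case `k₀ ≤ k`, `e = k - k₀`, `v_i ∈ QR (d (e + 1))`.  Fix `l`.  Let `B ≥ 0` with `‖v_(j,l)(z)‖ ≤ B sz^(d(e+1))` for all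
`j`, `z` (`Good.bdd`, finitely many `j`).  For `z ∈ U` choose `j` with `‖X_j(z)‖` maximal, so
`0 < sz z ≤ nx ‖X_j(z)‖`, and `‖X_j‖^d ‖v_(i₀,l)‖ = ‖X_(i₀)‖^d ‖v_(j,l)‖ ≤ ‖X_(i₀)‖^d B sz^(d(e+1))`, so
`‖v_(i₀,l)(z)‖ ≤ B nx^d sz^(d e) ‖X_(i₀)(z)^d‖` on `U`.  StCDV (`P = Δ`, `D = X_(i₀)^d`; `sz` is continuous):
`X_(i₀)^d ∣ v_(i₀,l)` for all `l`, so `v_(i₀) = C (X_(i₀)^d) g` (`Polynomial.C_dvd_iff_dvd_coeff`), and
`C (X_(i₀)^d) y = f C (X_(i₀)^d) g` gives `y = f g`.  `g_l ∈ R (d e)` by StCBD: `‖g_l‖ ≤ B nx^d sz^(d e)` where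
`ev (Δ X_(i₀)) z ≠ 0`, so everywhere (StCDN); homogeneity by StCHM (1): `Ps0 v_(i₀,l) = C v_(i₀,l) T^(d(e+1))`,
`Ps0 (X_(i₀)^d) = C (X_(i₀)^d) T^d`, cancel `C (X_(i₀)^d) T^d`. -/
def StCXD : Prop := ∀ C : Cone, Good C → ∀ (d k₀ k : ℕ) (f y : QQ C.m), 0 < d →
  f ∈ QR C (d * k₀) → f ≠ 0 → y ∈ QR C (d * k) → k₀ ≤ k + 1 →
  (∀ i, ∃ v ∈ QR C (d * (k + 1 - k₀)), Polynomial.C (C.X i ^ d) * y = f * v) → y ≠ 0 →
  k₀ ≤ k ∧ ∃ g ∈ QR C (d * (k - k₀)), y = f * g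

/-- MODULE CND (150 lines, uses StCHM).
PROOF.  `d = n r`.  (a) Noetherian: `F k 0 = R (d k)` (`NF.zero`), and `NF.gen` with `l = 0` gives
`R (d (k+1)) = span (R (d k) · R d)` for `k ≥ 1`.  Let `b_1..b_N` be a basis of `R d` (`Good.fd`), `S` the finite set of
the `Polynomial.C b_i` and `Polynomial.X`.  By induction on `k ≥ 1` `Polynomial.C g ∈ adjoin S` for `g ∈ R (d k)`; for
`k = 0` `g` is constant (`Good.cst`).  So `x = ∑ C (x_l) X^l ∈ adjoin S` for `x ∈ QR C (d k)`, and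
`Dd C d = adjoin S` (`S ⊆ Dd`: `C b_i ∈ QR C (d 1)`, `X ∈ QR C (d 0)` by `Good.one`).  Noetherian:
`Algebra.FiniteType` or `Subalgebra.FG`, `Algebra.FiniteType.isNoetherianRing`.
(b) `Algebra.adjoin_induction`: `x ∈ QR C (d k)`: `Ps x = C x T^(d k)` (StCHM (1), (3), `Good.hom`); constants;
sums; products: `(Ps (x y)).coeff n = ∑_(i+j=n) (Ps x).coeff i (Ps y).coeff j` (`Polynomial.coeff_mul`), and
`QR i · QR j ⊆ QR (i+j)` (`Good.mul`); if `d ∤ i + j` then `d ∤ i` or `d ∤ j`. -/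
def StCND : Prop := ∀ C : Cone, Good C → ∀ r F, NF C r F →
  IsNoetherianRing (Dd C (C.n * r)) ∧ ∀ x ∈ Dd C (C.n * r), ∀ n,
    (Ps C.w x).coeff n ∈ QR C n ∧ (¬ (C.n * r) ∣ n → (Ps C.w x).coeff n = 0)

/-- MODULE CXG (100 lines, uses StCHM StCND StCXD).
PROOF.  `d = n r > 0`, `y_n = (Ps y).coeff n`; `y = ∑_n y_n` (StCHM (4), `Polynomial.eval_eq_sum`).  It is enough to
find `g ∈ Dd` with `y_n = f g` for every `n`.  If `y_n = 0` take `g = 0`.  Otherwise `n = d k`.  Apply `Ps` to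
`C (X_i^d) y = f v_i`: `C (C (X_i^d)) T^d Ps y = C f T^(d k₀) Ps v_i` (StCHM (1), (3)), and take the coefficient of
`T^(n + d)`: `C (X_i^d) y_n = f (Ps v_i).coeff (n + d - d k₀)` if `d k₀ ≤ n + d`, and `= 0` otherwise.  The second case is
impossible for `X_i ≠ 0` (such `i` exists: `Good.Xpos`), so `k₀ ≤ k + 1`, and StCXD applies
(`(Ps v_i).coeff (d (k + 1 - k₀)) ∈ QR C _` by StCND). -/
def StCXG : Prop := ∀ C : Cone, Good C → ∀ r F, NF C r F → ∀ (k₀ : ℕ) (f : QQ C.m),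
  f ∈ QR C (C.n * r * k₀) → f ≠ 0 → ∀ y ∈ Dd C (C.n * r),
  (∀ i, ∃ v ∈ Dd C (C.n * r), Polynomial.C (C.X i ^ (C.n * r)) * y = f * v) →
  ∃ v ∈ Dd C (C.n * r), y = f * v

/-- MODULE CAP (120 lines; pure algebra).
PROOF.  `I` = the ideal of `D` generated by `f`, `M = D ⧸ I`.  `associatedPrimes D M` is finite
(`associatedPrimes.finite`).  For `p` in it let `V_p = {l ∈ L : l^d ∈ p}` (`l^d ∈ D` by hypothesis with `i = d`).  It is
a `ℂ`-subspace of `L`: `(c l)^d = c^d l^d`; if `a^d, b^d ∈ p` then the elements `a^i b^(d-i) ∈ D` have `d`-th power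
`(a^d)^i (b^d)^(d-i) ∈ p` (`d > 0`), so they are in the prime `p`, and so is `(a + b)^d` (binomial formula).
`V_p ≠ L`: `p` is the annihilator of the class of some `y ∈ D`, `y ∉ I`; if `V_p = L` then `x^d y ∈ I` for all
`x ∈ X`, so `y ∈ I` by hypothesis, a contradiction.  A vector space over the infinite field `ℂ` is not a finite
union of proper subspaces (`Subspace.biUnion_ne_univ_of_top_notMem`, applied to the type `L` and the `V_p` and
`⊥`, which is proper as `L ≠ ⊥`).  So there is `l ∈ L`, `l ≠ 0`, `l^d ∉ p` for all associated primes `p`, and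
`l^d` is not a zero divisor on `M` (`biUnion_associatedPrimes_eq_zero_divisors`). -/
def StCAP : Prop := ∀ (Q : Type) [CommRing Q] [Algebra ℂ Q] (D : Subalgebra ℂ Q)
  (L : Submodule ℂ Q) (X : Set Q) (d : ℕ) (f : Q), IsNoetherianRing D → 0 < d → f ∈ D →
  X ⊆ L → L ≠ ⊥ → (∀ a ∈ L, ∀ b ∈ L, ∀ i ≤ d, a ^ i * b ^ (d - i) ∈ D) →
  (∀ y ∈ D, (∀ x ∈ X, ∃ v ∈ D, x ^ d * y = f * v) → ∃ v ∈ D, y = f * v) →
  ∃ l ∈ L, l ≠ 0 ∧ ∀ y ∈ D, (∃ v ∈ D, l ^ d * y = f * v) → ∃ v ∈ D, y = f * v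

end Pool.Agent.Helper85.KPA
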